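import Pool.Agent.Lib.MP_1e901d_co.Five.Tree

/-! MP_1e901d_co : large branch trees, checked with bit masks. The increasing lists of length `k`
with entries below `n` are ranked; the lists known to be positive form a number. -/

set_option autoImplicit false

namespace Pool.Agent.Lib.MP1e901d.Tree

/-- componentwise `≤`, by the recursor -/
def domF (u : List ℕ) : List ℕ → Bool :=
  List.rec (motive := fun _ => List ℕ → Bool) (fun _ => true)
    (fun x _ ih t => List.rec (motive := fun _ => Bool) true
      (fun y t' _ => Bool.rec (motive := fun _ => Bool) false (ih t') (Nat.ble x y)) t) u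

theorem domF_eq : ∀ u t : List ℕ, domF u t = dom u t
  | [], _ => by simp [dom, domF]
  | x :: u, [] => by simp [dom, domF]
  | x :: u, y :: t => by
      have h : domF (x :: u) (y :: t) =
        Bool.rec (motive := fun _ => Bool) false (domF u t) (Nat.ble x y) := rfl
      rw [h, domF_eq u t, dom]
      cases Nat.ble x y <;> rfl

open Classical in
/-- the count follows from the known signs -/
def Good (n k : ℕ) (pos neg : List (List ℕ)) : Prop :=
  ∀ a : ℕ → ℝ, (∀ i j, i ≤ j → j < n → a j ≤ a i) → (∀ i, i + 1 < n → a (i + 1) < a i) →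
    ∑ i ∈ Finset.range n, a i = 0 → (∀ p ∈ pos, 0 < S a p) → (∀ s ∈ neg, S a s ≤ 0) →
    (n - 1).choose (k - 1) + 1 ≤ (allK n k).countP (fun u => decide (0 < S a u))

theorem Good.branch {n k : ℕ} {pos neg : List (List ℕ)} (t : List ℕ)
    (hl : Good n k (t :: pos) neg) (hr : Good n k pos (t :: neg)) : Good n k pos neg := by
  intro a h1 h2 h3 hp hn
  by_cases ht : 0 < S a t
  · refine hl a h1 h2 h3 ?_ hn
    intro p hpp
    rcases List.mem_cons.1 hpp with rfl | hpp
    · exact ht
    · exact hp p hpp
  · refine hr a h1 h2 h3 hp ?_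
    intro p hpp
    rcases List.mem_cons.1 hpp with rfl | hpp
    · exact not_lt.1 ht
    · exact hn p hpp

/-- binomial coefficients by products -/
def ch (a j : ℕ) : ℕ :=
  Nat.rec (motive := fun _ => ℕ) 1
    (fun j ih => Nat.div (Nat.mul ih (Nat.sub a j)) (Nat.succ j)) j

theorem ch_eq (a j : ℕ) : ch a j = a.choose j := by
  induction j with
  | zero => rw [Nat.choose_zero_right]; rfl
  | succ j ih =>
    have h : ch a (j + 1) = ch a j * (a - j) / (j + 1) := rfl
    rw [h, ih, ← Nat.choose_succ_right_eq]
    exact Nat.mul_div_cancel _ (Nat.succ_pos j)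

/-- the lists with first entry `x` -/
def part (n j M x : ℕ) : ℕ :=
  Nat.shiftLeft (Nat.mod M (Nat.pow 2 (ch (Nat.sub (Nat.sub n 1) x) j)))
    (ch (Nat.sub (Nat.sub n 1) x) (Nat.succ j))

/-- the lists with first entry at most `y` -/
def loop (n j M y : ℕ) : ℕ :=
  Nat.rec (motive := fun _ => ℕ) (part n j M 0)
    (fun x ih => Nat.lor ih (part n j M (Nat.succ x))) y

/-- the mask of the lists which dominate `t` -/
def mk (n k : ℕ) : List ℕ → ℕ :=
  Nat.rec (motive := fun _ => List ℕ → ℕ) (fun _ => 1)
    (fun j ih t => List.rec (motive := fun _ => ℕ) 0 (fun y t' _ => loop n j (ih t') y) t) k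

/-- the rank of an increasing list -/
def rk (n : ℕ) : List ℕ → ℕ
  | [] => 0
  | x :: u => (n - 1 - x).choose (u.length + 1) + rk n u

theorem testBit_part {n j M x i : ℕ} (h : (part n j M x).testBit i = true) :
    (n - 1 - x).choose (j + 1) ≤ i ∧
      i - (n - 1 - x).choose (j + 1) < (n - 1 - x).choose j ∧
      M.testBit (i - (n - 1 - x).choose (j + 1)) = true := by
  have h1 : part n j M x = (M % 2 ^ (ch (n - 1 - x) j)) <<< (ch (n - 1 - x) (j + 1)) := rfl
  rw [h1, ch_eq, ch_eq, Nat.testBit_shiftLeft, Bool.and_eq_true, Nat.testBit_mod_two_pow,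
    Bool.and_eq_true, decide_eq_true_eq, decide_eq_true_eq] at h
  exact ⟨h.1, h.2.1, h.2.2⟩

theorem testBit_loop {n j M i : ℕ} : ∀ y : ℕ, (loop n j M y).testBit i = true →
    ∃ x ≤ y, (n - 1 - x).choose (j + 1) ≤ i ∧
      i - (n - 1 - x).choose (j + 1) < (n - 1 - x).choose j ∧
      M.testBit (i - (n - 1 - x).choose (j + 1)) = true
  | 0, h => ⟨0, le_rfl, testBit_part h⟩
  | y + 1, h => by
    have h1 : loop n j M (y + 1) = loop n j M y ||| part n j M (y + 1) := rfl
    rw [h1, Nat.testBit_or, Bool.or_eq_true] at h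
    rcases h with h | h
    · obtain ⟨x, hx, h2⟩ := testBit_loop y h
      exact ⟨x, by omega, h2⟩
    · exact ⟨y + 1, le_rfl, testBit_part h⟩

theorem mk_sound {n : ℕ} : ∀ (k : ℕ) (t : List ℕ), t.length = k → (∀ y ∈ t, y < n) →
    ∀ i, (mk n k t).testBit i = true →
      ∃ u : List ℕ, u.length = k ∧ u.Pairwise (· < ·) ∧ (∀ x ∈ u, x < n) ∧ rk n u = i ∧
        dom u t = true
  | 0, t, hk, _, i, h => by
    have h1 : mk n 0 t = 1 := rfl
    rw [h1] at h
    have hi : i = 0 := by
      by_contra hcon
      have : Nat.testBit 1 i = false := by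
        apply Nat.testBit_eq_false_of_lt
        exact Nat.one_lt_two_pow hcon
      rw [this] at h
      exact Bool.false_ne_true h
    subst hi
    refine ⟨[], rfl, List.Pairwise.nil, by simp, rfl, ?_⟩
    cases t <;> rfl
  | k + 1, [], hk, _, i, h => by simp at hk
  | k + 1, y :: t, hk, hlt, i, h => by
    have h1 : mk n (k + 1) (y :: t) = loop n k (mk n k t) y := rfl
    rw [h1] at h
    obtain ⟨x, hxy, h2, h3, h4⟩ := testBit_loop y h
    obtain ⟨u, hu1, hu2, hu3, hu4, hu5⟩ := mk_sound k t (by simpa using hk)
      (fun z hz => hlt z (by simp [hz])) _ h4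
    have hyn : y < n := hlt y (by simp)
    have hxu : ∀ z ∈ u, x < z := by
      cases u with
      | nil => simp
      | cons x' u' =>
        have h5 : x < x' := by
          by_contra hcon
          have h6 : (n - 1 - x).choose k ≤ (n - 1 - x').choose k :=
            Nat.choose_le_choose k (by omega)
          rw [rk] at hu4
          have h7 : u'.length + 1 = k := by simpa using hu1
          rw [h7] at hu4
          omega
        intro z hz
        rcases List.mem_cons.1 hz with rfl | hz
        · exact h5
        · exact h5.trans ((List.pairwise_cons.1 hu2).1 z hz)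
    refine ⟨x :: u, by simp [hu1], List.pairwise_cons.2 ⟨hxu, hu2⟩, ?_, ?_, ?_⟩
    · intro z hz
      rcases List.mem_cons.1 hz with rfl | hz
      · omega
      · exact hu3 z hz
    · rw [rk, hu1, hu4]
      omega
    · rw [dom, Bool.and_eq_true]
      exact ⟨Nat.ble_eq.mpr hxy, hu5⟩

theorem sub_range' : ∀ (m lo : ℕ) (u : List ℕ), u.Pairwise (· < ·) →
    (∀ x ∈ u, lo ≤ x ∧ x < lo + m) → u.Sublist (List.range' lo m)
  | 0, lo, u, _, h => by
    cases u with
    | nil => exact List.nil_sublist _
    | cons x u =>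
      have := h x (by simp)
      omega
  | m + 1, lo, u, hu, h => by
    rw [List.range'_succ]
    cases u with
    | nil => exact List.nil_sublist _
    | cons x u =>
      by_cases hx : x = lo
      · subst hx
        apply List.Sublist.cons_cons
        refine sub_range' m (x + 1) u (List.pairwise_cons.1 hu).2 ?_
        intro z hz
        have h1 := (List.pairwise_cons.1 hu).1 z hz
        have h2 := h z (by simp [hz])
        omega
      · apply List.Sublist.cons
        refine sub_range' m (lo + 1) (x :: u) hu ?_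
        intro z hz
        have h0 := h x (by simp)
        have h2 := h z hz
        rcases List.mem_cons.1 hz with rfl | hz
        · omega
        · have h1 := (List.pairwise_cons.1 hu).1 z hz
          omega

theorem mem_allK {n k : ℕ} {u : List ℕ} (h1 : u.length = k) (h2 : u.Pairwise (· < ·))
    (h3 : ∀ x ∈ u, x < n) : u ∈ allK n k := by
  rw [allK, List.mem_sublistsLen]
  refine ⟨?_, h1⟩
  rw [List.range_eq_range']
  exact sub_range' n 0 u h2 (fun x hx => ⟨Nat.zero_le _, by have := h3 x hx; omega⟩)

/-! ### the bottom list -/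

theorem head_le {n : ℕ} : ∀ (v : List ℕ) (x : ℕ), (x :: v).Pairwise (· < ·) →
    (∀ z ∈ x :: v, z < n) → x + (v.length + 1) ≤ n
  | [], x, _, h => by
    have := h x (by simp)
    simp only [List.length_nil]
    omega
  | y :: v, x, hp, h => by
    have h1 := head_le v y (List.pairwise_cons.1 hp).2 (fun z hz => h z (by simp [hz]))
    have h2 := (List.pairwise_cons.1 hp).1 y (by simp)
    simp only [List.length_cons] at h1 ⊢
    omega

theorem dom_range' {n : ℕ} : ∀ (v : List ℕ) (lo : ℕ), v.Pairwise (· < ·) → (∀ z ∈ v, z < n) →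
    lo + v.length = n → dom v (List.range' lo v.length) = true
  | [], _, _, _, _ => rfl
  | x :: v, lo, hp, h, he => by
    have h1 := head_le v x hp h
    have h2 : List.range' lo (x :: v).length = lo :: List.range' (lo + 1) v.length := by
      rw [List.length_cons, List.range'_succ]
    rw [h2, dom, Bool.and_eq_true]
    simp only [List.length_cons] at he
    refine ⟨Nat.ble_eq.mpr (by omega), ?_⟩
    exact dom_range' v (lo + 1) (List.pairwise_cons.1 hp).2 (fun z hz => h z (by simp [hz]))
      (by omega)

theorem dom_bot {n k : ℕ} (hk : 1 ≤ k) {u : List ℕ} (hu : u ∈ allK n k) (h0 : 0 ∈ u) :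
    dom u (bot n k) = true := by
  rw [allK, List.mem_sublistsLen] at hu
  have hr : (List.range n).Pairwise (· < ·) := List.pairwise_lt_range
  have hp := hr.sublist hu.1
  have hlt : ∀ z ∈ u, z < n := fun z hz => List.mem_range.1 (hu.1.subset hz)
  cases u with
  | nil => simp at h0
  | cons x v =>
    have hx : x = 0 := by
      rcases List.mem_cons.1 h0 with h | h
      · exact h.symm
      · have := (List.pairwise_cons.1 hp).1 0 h
        omega
    subst hx
    have hlen : v.length = k - 1 := by
      have := hu.2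
      simp only [List.length_cons] at this
      omega
    have h1 := head_le v 0 hp hlt
    rw [bot, dom, Bool.and_eq_true, ← hlen]
    refine ⟨rfl, dom_range' v (n - k + 1) (List.pairwise_cons.1 hp).2
      (fun z hz => hlt z (by simp [hz])) (by omega)⟩

/-- the positions of the ones of a number below `N` -/
def bits (N m : ℕ) : Finset ℕ := (Finset.range N).filter (fun j => m.testBit j = true)

theorem mod_bits {w m : ℕ} (hw : ∀ j, m.testBit j = true → w ∣ j) : ∀ N : ℕ,
    Nat.ModEq (2 ^ w - 1) (m % 2 ^ N) (bits N m).card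
  | 0 => by simp [bits, Nat.mod_one]; exact Nat.ModEq.refl _
  | N + 1 => by
    have ih := mod_bits hw N
    have h1 : m % 2 ^ (N + 1) = 2 ^ N * (m.testBit N).toNat + m % 2 ^ N := by
      rw [Nat.mod_pow_succ, Nat.testBit_eq_decide_div_mod_eq]
      rcases Nat.mod_two_eq_zero_or_one (m / 2 ^ N) with h | h <;> simp [h, add_comm]
    have h2 : bits (N + 1) m = if m.testBit N = true then insert N (bits N m) else bits N m := by
      unfold bits
      rw [Finset.range_add_one, Finset.filter_insert]
    rw [h1, h2]
    by_cases hN : m.testBit N = true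
    · rw [if_pos hN, hN]
      have h3 : N ∉ bits N m := by simp [bits]
      rw [Finset.card_insert_of_notMem h3]
      obtain ⟨c, hc⟩ := hw N hN
      have h4 : Nat.ModEq (2 ^ w - 1) (2 ^ w) 1 := by
        have hpos : 1 ≤ 2 ^ w := Nat.one_le_two_pow
        have : 2 ^ w = 1 + (2 ^ w - 1) := by omega
        rw [this]
        simp [Nat.ModEq]
      have h5 : Nat.ModEq (2 ^ w - 1) (2 ^ N) 1 := by
        have := h4.pow c
        rw [one_pow, ← pow_mul, ← hc] at this
        exact this
      have h6 := Nat.ModEq.add (h5.mul_right (true.toNat)) ih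
      simpa [add_comm] using h6
    · rw [if_neg hN]
      rw [Bool.not_eq_true] at hN
      rw [hN]
      simpa using ih

theorem mod_le {w m N : ℕ} (hw : ∀ j, m.testBit j = true → w ∣ j) (hm : m < 2 ^ N) :
    m % (2 ^ w - 1) ≤ (bits N m).card := by
  have h := mod_bits hw N
  rw [Nat.mod_eq_of_lt hm] at h
  have h2 : m % (2 ^ w - 1) = (bits N m).card % (2 ^ w - 1) := h
  rw [h2]
  exact Nat.mod_le _ _

/-- ones at the multiples of `w` -/
def ones (w L : ℕ) : ℕ :=
  Nat.rec (motive := fun _ => ℕ) 0 (fun _ ih => Nat.lor (Nat.shiftLeft ih w) 1) L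

theorem ones_dvd {w : ℕ} : ∀ (L j : ℕ), (ones w L).testBit j = true → w ∣ j
  | 0, j, h => by
    have h1 : ones w 0 = 0 := rfl
    rw [h1, Nat.zero_testBit] at h
    exact absurd h Bool.false_ne_true
  | L + 1, j, h => by
    have h1 : ones w (L + 1) = (ones w L) <<< w ||| 1 := rfl
    rw [h1, Nat.testBit_or, Bool.or_eq_true] at h
    rcases h with h | h
    · rw [Nat.testBit_shiftLeft, Bool.and_eq_true, decide_eq_true_eq] at h
      have h2 := ones_dvd L _ h.2
      have h3 : j = (j - w) + w := by omega
      rw [h3]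
      exact dvd_add h2 dvd_rfl
    · have hj : j = 0 := by
        by_contra hcon
        have : Nat.testBit 1 j = false := by
          apply Nat.testBit_eq_false_of_lt
          exact Nat.one_lt_two_pow hcon
        rw [this] at h
        exact Bool.false_ne_true h
      rw [hj]
      exact dvd_zero w

/-- a lower bound for the number of ones -/
def pc (w M : ℕ) (r m : ℕ) : ℕ :=
  Nat.rec (motive := fun _ => ℕ) 0
    (fun r ih => Nat.add ih (Nat.mod (Nat.land (Nat.shiftRight m r) M)
      (Nat.sub (Nat.pow 2 w) 1))) r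

theorem pc_le {w M N m : ℕ} (hM : ∀ j, M.testBit j = true → w ∣ j) (hm : m < 2 ^ N) :
    ∀ r ≤ w, pc w M r m ≤ ((bits N m).filter (fun j => j % w < r)).card
  | 0, _ => by
    have h1 : pc w M 0 m = 0 := rfl
    rw [h1]
    exact Nat.zero_le _
  | r + 1, hr => by
    have ih := pc_le hM hm r (by omega)
    have h1 : pc w M (r + 1) m = pc w M r m + ((m >>> r) &&& M) % (2 ^ w - 1) := rfl
    have hlt : (m >>> r) &&& M < 2 ^ N :=
      lt_of_le_of_lt (Nat.and_le_left) (lt_of_le_of_lt (Nat.shiftRight_le m r) hm)
    have hdv : ∀ j, ((m >>> r) &&& M).testBit j = true → w ∣ j := by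
      intro j hj
      rw [Nat.testBit_and, Bool.and_eq_true] at hj
      exact hM j hj.2
    have h2 := mod_le hdv hlt
    have h3 : (bits N ((m >>> r) &&& M)).card ≤
        ((bits N m).filter (fun j => j % w = r)).card := by
      apply Finset.card_le_card_of_injOn (fun j => j + r)
      · intro j hj
        have hj := Finset.mem_coe.1 hj
        rw [bits, Finset.mem_filter] at hj
        have h4 := hdv j hj.2
        rw [Nat.testBit_and, Bool.and_eq_true, Nat.testBit_shiftRight] at hj
        rw [Finset.mem_coe, Finset.mem_filter, bits, Finset.mem_filter, Finset.mem_range]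
        have h5 : m.testBit (j + r) = true := by rw [add_comm]; exact hj.2.1
        refine ⟨⟨?_, h5⟩, ?_⟩
        · by_contra hcon
          have h6 : m.testBit (j + r) = false := by
            apply Nat.testBit_eq_false_of_lt
            exact lt_of_lt_of_le hm (Nat.pow_le_pow_right (by norm_num) (not_lt.1 hcon))
          rw [h6] at h5
          exact Bool.false_ne_true h5
        · show (j + r) % w = r
          obtain ⟨c, rfl⟩ := h4
          rw [Nat.mul_add_mod]
          exact Nat.mod_eq_of_lt (by omega)
      · intro j _ j' _ h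
        exact Nat.add_right_cancel h
    have h4 : ((bits N m).filter (fun j => j % w < r)).card +
        ((bits N m).filter (fun j => j % w = r)).card ≤
        ((bits N m).filter (fun j => j % w < r + 1)).card := by
      rw [← Finset.card_union_of_disjoint]
      · apply Finset.card_le_card
        intro j hj
        rw [Finset.mem_union, Finset.mem_filter, Finset.mem_filter] at hj
        rw [Finset.mem_filter]
        rcases hj with hj | hj
        · exact ⟨hj.1, by omega⟩
        · exact ⟨hj.1, by omega⟩
      · rw [Finset.disjoint_left]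
        intro j hj hj'
        rw [Finset.mem_filter] at hj hj'
        omega
    rw [h1]
    omega

/-- every one of `m` is the rank of a positive list -/
def Pos (n k : ℕ) (a : ℕ → ℝ) (m : ℕ) : Prop :=
  ∀ j, m.testBit j = true → ∃ u ∈ allK n k, rk n u = j ∧ 0 < S a u

open Classical in
theorem Pos.count {n k : ℕ} {a : ℕ → ℝ} {m N : ℕ} (h : Pos n k a m) :
    (bits N m).card ≤ (allK n k).countP (fun u => decide (0 < S a u)) := by
  rw [List.countP_eq_length_filter]
  set L := (allK n k).filter (fun u => decide (0 < S a u)) with hL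
  have hLnd : L.Nodup := (List.nodup_sublistsLen k List.nodup_range).filter _
  rw [← List.toFinset_card_of_nodup hLnd]
  have h2 : bits N m ⊆ L.toFinset.image (rk n) := by
    intro j hj
    rw [bits, Finset.mem_filter] at hj
    obtain ⟨u, hu, hr, hS⟩ := h j hj.2
    rw [Finset.mem_image]
    exact ⟨u, by rw [List.mem_toFinset, hL, List.mem_filter]; exact ⟨hu, by simpa using hS⟩, hr⟩
  exact (Finset.card_le_card h2).trans Finset.card_image_le

theorem Pos.lor {n k : ℕ} {a : ℕ → ℝ} {m m' : ℕ} (h : Pos n k a m) (h' : Pos n k a m') :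
    Pos n k a (m ||| m') := by
  intro j hj
  rw [Nat.testBit_or, Bool.or_eq_true] at hj
  rcases hj with hj | hj
  · exact h j hj
  · exact h' j hj

theorem Pos.mk {n k : ℕ} {a : ℕ → ℝ} (hanti : ∀ i j, i ≤ j → j < n → a j ≤ a i) {t : List ℕ}
    (ht : t.length = k) (hlt : ∀ y ∈ t, y < n) (hpos : 0 < S a t) : Pos n k a (mk n k t) := by
  intro j hj
  obtain ⟨u, h1, h2, h3, h4, h5⟩ := mk_sound k t ht hlt j hj
  exact ⟨u, mem_allK h1 h2 h3, h4,
    lt_of_lt_of_le hpos (dom_le hanti u t (by rw [h1, ht]) h5 hlt)⟩

/-! ### the checker -/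

/-- number of occurrences -/
def cntF (i : ℕ) (t : List ℕ) : ℕ :=
  List.rec (motive := fun _ => ℕ) 0
    (fun x _ ih => Bool.rec (motive := fun _ => ℕ) ih (Nat.succ ih) (Nat.beq x i)) t

theorem cntF_eq (i : ℕ) : ∀ t : List ℕ, cntF i t = cnt i t
  | [] => rfl
  | x :: t => by
    have h : cntF i (x :: t) = Bool.rec (motive := fun _ => ℕ) (cntF i t) (Nat.succ (cntF i t))
      (Nat.beq x i) := rfl
    rw [h, cnt, cntF_eq i t]
    cases Nat.beq x i <;> rfl

/-- weighted coverage -/
def covF (c : List (ℕ × List ℕ)) (i : ℕ) : ℕ :=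
  List.rec (motive := fun _ => ℕ) 0
    (fun p _ ih => Nat.add (Nat.mul p.1 (cntF i p.2)) ih) c

theorem covF_eq (i : ℕ) : ∀ c : List (ℕ × List ℕ), covF c i = cov c i
  | [] => rfl
  | p :: c => by
    have h : covF (p :: c) i = p.1 * cntF i p.2 + covF c i := rfl
    rw [h, cov, covF_eq i c, cntF_eq]

/-- prefix test -/
def runF (nu : ℕ) (c : List (ℕ × List ℕ)) (m : ℕ) : ℕ → ℕ → Bool → Bool :=
  Nat.rec (motive := fun _ => ℕ → ℕ → Bool → Bool) (fun i s st => st && Nat.beq s (Nat.mul nu i))
    (fun _ ih i s st => Nat.ble (Nat.mul nu (Nat.succ i)) (Nat.add s (covF c i)) &&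
      ih (Nat.succ i) (Nat.add s (covF c i))
        (st || Nat.blt (Nat.mul nu (Nat.succ i)) (Nat.add s (covF c i)))) m

theorem runF_eq (nu : ℕ) (c : List (ℕ × List ℕ)) : ∀ (m i s : ℕ) (st : Bool),
    runF nu c m i s st = run nu c m i s st
  | 0, i, s, st => rfl
  | m + 1, i, s, st => by
    have h : runF nu c (m + 1) i s st = (Nat.ble (nu * (i + 1)) (s + covF c i) &&
      runF nu c m (i + 1) (s + covF c i) (st || Nat.blt (nu * (i + 1)) (s + covF c i))) := rfl
    rw [h, run, covF_eq, runF_eq nu c m]

/-- `any` by the recursor -/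
def anyF (p : List ℕ) (neg : List (List ℕ)) : Bool :=
  List.rec (motive := fun _ => Bool) false
    (fun s _ ih => Bool.rec (motive := fun _ => Bool) ih true (domF s p)) neg

theorem anyF_true {p : List ℕ} : ∀ {neg : List (List ℕ)}, anyF p neg = true →
    ∃ s ∈ neg, dom s p = true
  | [], h => by exact absurd h Bool.false_ne_true
  | s :: neg, h => by
    have h1 : anyF p (s :: neg) = Bool.rec (motive := fun _ => Bool) (anyF p neg) true
      (domF s p) := rfl
    rw [h1, domF_eq] at h
    by_cases hd : dom s p = true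
    · exact ⟨s, by simp, hd⟩
    · rw [Bool.not_eq_true] at hd
      rw [hd] at h
      obtain ⟨s', hs', hd'⟩ := anyF_true (neg := neg) h
      exact ⟨s', by simp [hs'], hd'⟩

/-- digits in base 32 -/
def dec (k : ℕ) : ℕ → List ℕ :=
  Nat.rec (motive := fun _ => ℕ → List ℕ) (fun _ => [])
    (fun _ ih c => Nat.mod c 32 :: ih (Nat.div c 32)) k

theorem dec_length : ∀ k c : ℕ, (dec k c).length = k
  | 0, c => rfl
  | k + 1, c => by
    have h : dec (k + 1) c = (c % 32) :: dec k (c / 32) := rfl
    rw [h, List.length_cons, dec_length k]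

/-- entries below `n` -/
def ltsF (n : ℕ) (t : List ℕ) : Bool :=
  List.rec (motive := fun _ => Bool) true (fun x _ ih => Nat.ble (Nat.succ x) n && ih) t

theorem ltsF_true {n : ℕ} : ∀ {t : List ℕ}, ltsF n t = true → ∀ x ∈ t, x < n
  | [], _, x, hx => by simp at hx
  | y :: t, h, x, hx => by
    have h1 : ltsF n (y :: t) = (Nat.ble (y + 1) n && ltsF n t) := rfl
    rw [h1, Bool.and_eq_true] at h
    rcases List.mem_cons.1 hx with rfl | hx
    · exact Nat.le_of_ble_eq_true h.1
    · exact ltsF_true h.2 x hx

/-- decode a certificate -/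
def decC (k : ℕ) (c : List ℕ) : List (ℕ × List ℕ) :=
  List.rec (motive := fun _ => List (ℕ × List ℕ)) []
    (fun x _ ih => (Nat.mod x 4096, dec k (Nat.div x 4096)) :: ih) c

/-- all lists of a certificate are nonpositive -/
def allC (n : ℕ) (neg : List (List ℕ)) (c : List (ℕ × List ℕ)) : Bool :=
  List.rec (motive := fun _ => Bool) true (fun p _ ih => ltsF n p.2 && anyF p.2 neg && ih) c

theorem allC_true {n : ℕ} {neg : List (List ℕ)} : ∀ {c : List (ℕ × List ℕ)},
    allC n neg c = true → ∀ p ∈ c, (∀ x ∈ p.2, x < n) ∧ ∃ s ∈ neg, dom s p.2 = true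
  | [], _, p, hp => by simp at hp
  | q :: c, h, p, hp => by
    have h1 : allC n neg (q :: c) = (ltsF n q.2 && anyF q.2 neg && allC n neg c) := rfl
    rw [h1, Bool.and_eq_true, Bool.and_eq_true] at h
    rcases List.mem_cons.1 hp with rfl | hp
    · exact ⟨ltsF_true h.1.1, anyF_true h.1.2⟩
    · exact allC_true h.2 p hp

theorem decC_length (k : ℕ) : ∀ (c : List ℕ), ∀ p ∈ decC k c, p.2.length = k
  | [], p, hp => by
    have h : decC k [] = [] := rfl
    rw [h] at hp
    simp at hp
  | x :: c, p, hp => by
    have h : decC k (x :: c) = (x % 4096, dec k (x / 4096)) :: decC k c := rfl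
    rw [h] at hp
    rcases List.mem_cons.1 hp with rfl | hp
    · exact dec_length k _
    · exact decC_length k c p hp

/-- branch trees with coded lists -/
inductive Tc
  | B (c : ℕ) (l r : Tc)
  | P
  | N (nu : ℕ) (c : List ℕ)

/-- the checker -/
noncomputable def checkM (n k goal w M : ℕ) (tr : Tc) : ℕ → List (List ℕ) → Bool :=
  Tc.rec (motive := fun _ => ℕ → List (List ℕ) → Bool)
    (fun c _ _ ihl ihr m neg => ltsF n (dec k c) && ihl (Nat.lor m (mk n k (dec k c))) neg &&
      ihr m (dec k c :: neg))
    (fun m _ => Nat.ble goal (pc w M w m))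
    (fun nu c _ neg => allC n neg (decC k c) && runF nu (decC k c) n 0 0 false) tr

open Classical in
theorem checkM_sound {n k goal w M : ℕ} (hM : ∀ j, M.testBit j = true → w ∣ j)
    {a : ℕ → ℝ} (hanti : ∀ i j, i ≤ j → j < n → a j ≤ a i)
    (hlt : ∀ i, i + 1 < n → a (i + 1) < a i) (hsum : ∑ i ∈ Finset.range n, a i = 0) :
    ∀ (tr : Tc) (m : ℕ) (neg : List (List ℕ)), Pos n k a m →
      (∀ s ∈ neg, s.length = k ∧ S a s ≤ 0) → checkM n k goal w M tr m neg = true →
      goal ≤ (allK n k).countP (fun u => decide (0 < S a u)) := by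
  intro tr
  induction tr with
  | B c l r ihl ihr =>
    intro m neg hm hneg h
    have h0 : checkM n k goal w M (.B c l r) m neg = (ltsF n (dec k c) &&
      checkM n k goal w M l (m ||| mk n k (dec k c)) neg &&
      checkM n k goal w M r m (dec k c :: neg)) := rfl
    rw [h0, Bool.and_eq_true, Bool.and_eq_true] at h
    obtain ⟨⟨h1, h2⟩, h3⟩ := h
    by_cases hpos : 0 < S a (dec k c)
    · exact ihl _ neg (hm.lor (Pos.mk hanti (dec_length k c) (ltsF_true h1) hpos)) hneg h2
    · refine ihr m _ hm ?_ h3
      intro s hs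
      rcases List.mem_cons.1 hs with rfl | hs
      · exact ⟨dec_length k c, not_lt.1 hpos⟩
      · exact hneg s hs
  | P =>
    intro m neg hm hneg h
    have h0 : checkM n k goal w M .P m neg = Nat.ble goal (pc w M w m) := rfl
    rw [h0] at h
    have h1 := Nat.le_of_ble_eq_true h
    have hmlt : m < 2 ^ m := Nat.lt_two_pow_self
    have h2 := pc_le hM hmlt w le_rfl
    have h3 := hm.count (N := m)
    have h4 := Finset.card_filter_le (bits m m) (fun j => j % w < w)
    omega
  | N nu c =>
    intro m neg hm hneg h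
    have h0 : checkM n k goal w M (.N nu c) m neg = (allC n neg (decC k c) &&
      runF nu (decC k c) n 0 0 false) := rfl
    rw [h0, Bool.and_eq_true, runF_eq] at h
    exfalso
    refine cert_false hlt hsum (fun p hp => (allC_true h.1 p hp).1) ?_ h.2
    intro p hp
    obtain ⟨h1, s, hs, hd⟩ := allC_true h.1 p hp
    have hlen := decC_length k c p hp
    exact (dom_le hanti s p.2 (by rw [(hneg s hs).1, hlen]) hd h1).trans (hneg s hs).2

/-- the mask of several lists -/
def mks (n k : ℕ) (pos : List ℕ) : ℕ :=
  List.rec (motive := fun _ => ℕ) 0 (fun c _ ih => Nat.lor ih (mk n k (dec k c))) pos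

/-- all coded lists have entries below `n` -/
def okP (n k : ℕ) (pos : List ℕ) : Bool :=
  List.rec (motive := fun _ => Bool) true (fun c _ ih => ltsF n (dec k c) && ih) pos

/-- the test of a piece -/
noncomputable def pieceM (n k goal w L : ℕ) (pos neg : List ℕ) (tr : Tc) : Bool :=
  okP n k pos && checkM n k goal w (ones w L) tr (mks n k pos) (neg.map (dec k))

theorem Good.of_pieceM {n k goal w L : ℕ} {pos neg : List ℕ} {tr : Tc}
    (hg : (n - 1).choose (k - 1) + 1 = goal) (h : pieceM n k goal w L pos neg tr = true) :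
    Good n k (pos.map (dec k)) (neg.map (dec k)) := by
  intro a h1 h2 h3 hp hn
  rw [pieceM, Bool.and_eq_true] at h
  rw [hg]
  refine checkM_sound (ones_dvd L) h1 h2 h3 tr _ _ ?_ ?_ h.2
  · have hok := h.1
    clear h
    induction pos with
    | nil =>
      intro j hj
      have h0 : mks n k [] = 0 := rfl
      rw [h0, Nat.zero_testBit] at hj
      exact absurd hj Bool.false_ne_true
    | cons c pos ih =>
      have h0 : mks n k (c :: pos) = mks n k pos ||| mk n k (dec k c) := rfl
      have h4 : okP n k (c :: pos) = (ltsF n (dec k c) && okP n k pos) := rfl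
      rw [h4, Bool.and_eq_true] at hok
      rw [h0]
      refine (ih (fun p hpp => hp p (by simp only [List.map_cons, List.mem_cons]; exact Or.inr hpp))
        hok.2).lor ?_
      exact Pos.mk h1 (dec_length k c) (ltsF_true hok.1) (hp _ (by simp))
  · intro s hs
    refine ⟨?_, hn s hs⟩
    obtain ⟨c, _, rfl⟩ := List.mem_map.1 hs
    exact dec_length k c

end Pool.Agent.Lib.MP1e901d.Tree
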