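import Pool.Agent.Lib.MP_1e901d_co.Large
import Pool.Agent.Lib.MP_1e901d_co.Five.Mask

/-! MP_1e901d_co : from a checked branch tree to the statement on sets of reals: few positive
`k`-subset sums only for stars. -/

set_option autoImplicit false

namespace Pool.Agent.Lib.MP1e901d

open Finset Pool.Agent.Lib.MP1e901d.Tree

open Classical in
theorem of_good {k n : ℕ} (hk : 2 ≤ k) (hkn : k ≤ n) (hg : Good n k [] [bot n k])
    {A : Finset ℝ} (hA : Admissible n A) (h : (posSets k A).card ≤ (n - 1).choose (k - 1)) :
    ∃ x ∈ A, ∀ B ⊆ A, B.card = k → (0 < ∑ b ∈ B, b ↔ x ∈ B) := by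
  have hn : 0 < n := by omega
  let e := A.orderEmbOfFin hA.1
  let a : ℕ → ℝ := fun i => if h : i < n then e (Fin.rev ⟨i, h⟩) else 0
  have halt : ∀ i j, i < j → j < n → a j < a i := by
    intro i j hij hj
    have hi : i < n := hij.trans hj
    simp only [a, dif_pos hi, dif_pos hj]
    apply e.strictMono
    rw [Fin.rev_lt_rev]
    exact hij
  have hanti : ∀ i j, i ≤ j → j < n → a j ≤ a i := by
    intro i j hij hj
    rcases Nat.lt_or_ge i j with h1 | h1
    · exact (halt i j h1 hj).le
    · have : i = j := le_antisymm hij h1
      rw [this]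
  have hinj : Set.InjOn a (Finset.range n : Set ℕ) := by
    intro i hi j hj hij
    have hi := Finset.mem_range.1 (Finset.mem_coe.1 hi)
    have hj := Finset.mem_range.1 (Finset.mem_coe.1 hj)
    rcases Nat.lt_trichotomy i j with h1 | h1 | h1
    · exact absurd hij (halt i j h1 hj).ne'
    · exact h1
    · exact absurd hij (halt j i h1 hi).ne
  have himg : (Finset.range n).image a = A := by
    apply Finset.eq_of_subset_of_card_le
    · intro x hx
      obtain ⟨i, hi, rfl⟩ := Finset.mem_image.1 hx
      have hi := Finset.mem_range.1 hi
      simp only [a, dif_pos hi]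
      exact Finset.orderEmbOfFin_mem A hA.1 _
    · rw [Finset.card_image_of_injOn hinj, Finset.card_range, hA.1]
  have hsum : ∑ i ∈ Finset.range n, a i = 0 := by
    have := hA.2
    rw [← himg, Finset.sum_image hinj] at this
    exact this
  have hall : ∀ u ∈ allK n k, u.Sublist (List.range n) ∧ u.length = k := fun u hu =>
    List.mem_sublistsLen.1 hu
  have hsub : ∀ u ∈ allK n k, (u.toFinset : Finset ℕ) ⊆ Finset.range n := by
    intro u hu i hi
    rw [List.mem_toFinset] at hi
    rw [Finset.mem_range]
    exact List.mem_range.1 ((hall u hu).1.subset hi)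
  have hnd : ∀ u ∈ allK n k, u.Nodup := fun u hu => (hall u hu).1.nodup List.nodup_range
  have hS : ∀ u ∈ allK n k, ∑ b ∈ u.toFinset.image a, b = S a u := by
    intro u hu
    rw [Finset.sum_image (hinj.mono (by exact_mod_cast hsub u hu)), S,
      List.sum_toFinset _ (hnd u hu)]
  have hbotlen : (bot n k).length = k := by
    rw [bot, List.length_cons, List.length_range']
    omega
  have hbotlt : ∀ x ∈ bot n k, x < n := by
    intro x hx
    rw [bot, List.mem_cons, List.mem_range'] at hx
    rcases hx with rfl | ⟨i, hi, rfl⟩
    · exact hn
    · omega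
  -- the number of positive lists is at most the number of positive sets
  have hcount : (allK n k).countP (fun u => decide (0 < S a u)) ≤ (posSets k A).card := by
    rw [List.countP_eq_length_filter]
    set L := (allK n k).filter (fun u => decide (0 < S a u)) with hL
    have hLnd : L.Nodup := (List.nodup_sublistsLen k List.nodup_range).filter _
    rw [← List.toFinset_card_of_nodup hLnd]
    have hLmem : ∀ u ∈ L.toFinset, u ∈ allK n k ∧ 0 < S a u := by
      intro u hu
      rw [List.mem_toFinset, hL, List.mem_filter] at hu
      exact ⟨hu.1, by simpa using hu.2⟩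
    apply Finset.card_le_card_of_injOn (fun u : List ℕ => u.toFinset.image a)
    · intro u hu
      obtain ⟨h1, h2⟩ := hLmem u hu
      rw [Finset.mem_coe, mem_posSets]
      refine ⟨⟨?_, ?_⟩, ?_⟩
      · rw [← himg]
        exact Finset.image_subset_image (hsub u h1)
      · rw [Finset.card_image_of_injOn (hinj.mono (by exact_mod_cast hsub u h1)),
          List.toFinset_card_of_nodup (hnd u h1), (hall u h1).2]
      · rw [hS u h1]
        exact h2
    · intro u hu v hv huv
      obtain ⟨h1, _⟩ := hLmem u hu
      obtain ⟨h2, _⟩ := hLmem v hv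
      have h3 : u.toFinset = v.toFinset := by
        ext i
        constructor
        · intro hi
          have : a i ∈ v.toFinset.image a := by
            rw [← show u.toFinset.image a = v.toFinset.image a from huv]
            exact Finset.mem_image_of_mem _ hi
          obtain ⟨j, hj, hji⟩ := Finset.mem_image.1 this
          have : j = i := hinj (by exact_mod_cast hsub v h2 hj) (by exact_mod_cast hsub u h1 hi) hji
          rwa [← this]
        · intro hi
          have : a i ∈ u.toFinset.image a := by
            rw [show u.toFinset.image a = v.toFinset.image a from huv]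
            exact Finset.mem_image_of_mem _ hi
          obtain ⟨j, hj, hji⟩ := Finset.mem_image.1 this
          have : j = i := hinj (by exact_mod_cast hsub u h1 hj) (by exact_mod_cast hsub v h2 hi) hji
          rwa [← this]
      have hr : (List.range n).Pairwise (· < ·) := List.pairwise_lt_range
      exact List.Pairwise.eq_of_mem_iff (hr.sublist (hall u h1).1) (hr.sublist (hall v h2).1)
        (fun i => by rw [← List.mem_toFinset, ← List.mem_toFinset, h3])
  -- the bottom list through `0` is positive
  have h0 : 0 < S a (bot n k) := by
    by_contra hcon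
    have := hg a hanti (fun i hi => halt i (i + 1) (Nat.lt_succ_self i) hi) hsum
      (by simp) (by
        intro s hs
        rw [List.mem_singleton] at hs
        rw [hs]
        exact not_lt.1 hcon)
    omega
  refine ⟨a 0, ?_, ?_⟩
  · rw [← himg]
    exact Finset.mem_image_of_mem _ (Finset.mem_range.2 hn)
  have hone : ∀ B ⊆ A, B.card = k → a 0 ∈ B → 0 < ∑ b ∈ B, b := by
    intro B hBA hBk h0B
    set u := (List.range n).filter (fun i => decide (a i ∈ B)) with hu
    have hfin : u.toFinset.image a = B := by
      ext x
      rw [Finset.mem_image]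
      constructor
      · rintro ⟨i, hi, rfl⟩
        rw [List.mem_toFinset, hu, List.mem_filter] at hi
        simpa using hi.2
      · intro hx
        have hxA := hBA hx
        rw [← himg] at hxA
        obtain ⟨i, hi, rfl⟩ := Finset.mem_image.1 hxA
        refine ⟨i, ?_, rfl⟩
        rw [List.mem_toFinset, hu, List.mem_filter]
        exact ⟨List.mem_range.2 (Finset.mem_range.1 hi), by simpa using hx⟩
    have hsl : u.Sublist (List.range n) := List.filter_sublist
    have hund : u.Nodup := hsl.nodup List.nodup_range
    have husub : (u.toFinset : Finset ℕ) ⊆ Finset.range n := by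
      intro i hi
      rw [List.mem_toFinset] at hi
      rw [Finset.mem_range]
      exact List.mem_range.1 (hsl.subset hi)
    have hlen : u.length = k := by
      rw [← List.toFinset_card_of_nodup hund,
        ← Finset.card_image_of_injOn (hinj.mono (by exact_mod_cast husub)), hfin, hBk]
    have huall : u ∈ allK n k := List.mem_sublistsLen.2 ⟨hsl, hlen⟩
    have h0u : 0 ∈ u := by
      rw [hu, List.mem_filter]
      exact ⟨List.mem_range.2 hn, by simpa using h0B⟩
    have hd : dom u (bot n k) = true := dom_bot (by omega) huall h0u
    have h2 := dom_le hanti u (bot n k) (by rw [hlen, hbotlen]) hd hbotlt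
    have h3 := hS u huall
    rw [hfin] at h3
    rw [h3]
    exact lt_of_lt_of_le h0 h2
  intro B hBA hBk
  refine ⟨fun hpos => ?_, hone B hBA hBk⟩
  have ha0 : a 0 ∈ A := by
    rw [← himg]
    exact Finset.mem_image_of_mem _ (Finset.mem_range.2 hn)
  have hst : (A.powersetCard k).filter (fun B => a 0 ∈ B) ⊆ posSets k A := by
    intro C hC
    rw [Finset.mem_filter, Finset.mem_powersetCard] at hC
    rw [mem_posSets]
    exact ⟨hC.1, hone C hC.1.1 hC.1.2 hC.2⟩
  have hcs := card_star ha0 (k := k) (by omega)
  rw [hA.1] at hcs
  have heq := Finset.eq_of_subset_of_card_le hst (by rw [hcs]; exact h)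
  have : B ∈ posSets k A := mem_posSets.2 ⟨⟨hBA, hBk⟩, hpos⟩
  rw [← heq, Finset.mem_filter] at this
  exact this.2

end Pool.Agent.Lib.MP1e901d
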