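import Pool.Agent.Lib.MP_1e901d_co.Five.Base
import Pool.Agent.Lib.MP_1e901d_co.Five.G17
import Pool.Agent.Lib.MP_1e901d_co.Five.G18
import Pool.Agent.Lib.MP_1e901d_co.Five.G19
import Pool.Agent.Lib.MP_1e901d_co.Five.G21

/-! MP_1e901d_co : the base cases `k = 5`, `n = 17, 18, 19, 21`. -/

set_option autoImplicit false

namespace Pool.Agent.Lib.MP1e901d

open Finset

theorem few_5_17 {A : Finset ℝ} (hA : Admissible 17 A)
    (h : (posSets 5 A).card ≤ (17 - 1).choose (5 - 1)) :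
    ∃ x ∈ A, ∀ B ⊆ A, B.card = 5 → (0 < ∑ b ∈ B, b ↔ x ∈ B) :=
  of_good (by norm_num) (by norm_num) Tree.good_5_17 hA h

theorem few_5_18 {A : Finset ℝ} (hA : Admissible 18 A)
    (h : (posSets 5 A).card ≤ (18 - 1).choose (5 - 1)) :
    ∃ x ∈ A, ∀ B ⊆ A, B.card = 5 → (0 < ∑ b ∈ B, b ↔ x ∈ B) :=
  of_good (by norm_num) (by norm_num) Tree.good_5_18 hA h

theorem few_5_19 {A : Finset ℝ} (hA : Admissible 19 A)
    (h : (posSets 5 A).card ≤ (19 - 1).choose (5 - 1)) :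
    ∃ x ∈ A, ∀ B ⊆ A, B.card = 5 → (0 < ∑ b ∈ B, b ↔ x ∈ B) :=
  of_good (by norm_num) (by norm_num) Tree.good_5_19 hA h

theorem few_5_21 {A : Finset ℝ} (hA : Admissible 21 A)
    (h : (posSets 5 A).card ≤ (21 - 1).choose (5 - 1)) :
    ∃ x ∈ A, ∀ B ⊆ A, B.card = 5 → (0 < ∑ b ∈ B, b ↔ x ∈ B) :=
  of_good (by norm_num) (by norm_num) Tree.good_5_21 hA h

end Pool.Agent.Lib.MP1e901d
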