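import Pool.Agent.Lib.MP_1e901d_co.Five.Final
import Pool.Agent.Lib.MP_1e901d_co.Step

/-! MP_1e901d_co : the base cases for `k = 5` in terms of `StarMin`. -/

set_option autoImplicit false

namespace Pool.Agent.Lib.MP1e901d

open Finset
open scoped Classical

theorem starMin_of_few {k n : ℕ} (hk : 1 ≤ k)
    (hU : ∀ A : Finset ℝ, Admissible n A → (posSets k A).card ≤ (n - 1).choose (k - 1) →
      ∃ x ∈ A, ∀ B ⊆ A, B.card = k → (0 < ∑ b ∈ B, b ↔ x ∈ B)) :
    StarMin (fun s => s < 0) k n := by
  intro A hA
  set A' : Finset ℝ := A.image (fun x => -x) with hA'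
  have hadm : Admissible n A' := neg_admissible hA
  have hle : (posSets k A').card ≤ cntR (fun s => s < 0) k A := by
    apply Finset.card_le_card_of_injOn (fun B => B.image (fun x => -x))
    · intro B hB
      rw [Finset.mem_coe, mem_posSets] at hB
      rw [Finset.mem_coe, Finset.mem_filter, Finset.mem_powersetCard]
      refine ⟨⟨?_, ?_⟩, ?_⟩
      · intro y hy
        obtain ⟨b, hb, rfl⟩ := Finset.mem_image.1 hy
        obtain ⟨a, ha, hab⟩ := Finset.mem_image.1 (hB.1.1 hb)
        rw [← hab, neg_neg]
        exact ha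
      · rw [Finset.card_image_of_injective _ neg_injective, hB.1.2]
      · show ∑ b ∈ B.image (fun x => -x), b < 0
        rw [Finset.sum_image (fun _ _ _ _ h => neg_injective h), Finset.sum_neg_distrib]
        linarith [hB.2]
    · intro B _ B' _ h
      exact Finset.image_injective neg_injective h
  have hstar : (posSets k A').card ≤ (n - 1).choose (k - 1) →
      ∃ x ∈ A, ∀ B : Finset ℝ, B ⊆ A → B.card = k → (∑ b ∈ B, b < 0 ↔ x ∈ B) := by
    intro h
    obtain ⟨x, hx, hB⟩ := hU A' hadm h
    obtain ⟨y, hy, hyx⟩ := Finset.mem_image.1 hx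
    refine ⟨y, hy, fun B hBA hBk => ?_⟩
    have h1 := hB (B.image (fun x => -x)) (Finset.image_subset_image hBA)
      (by rw [Finset.card_image_of_injective _ neg_injective, hBk])
    rw [Finset.sum_image (fun _ _ _ _ h => neg_injective h), Finset.sum_neg_distrib, ← hyx] at h1
    have h2 : -y ∈ B.image (fun x => -x) ↔ y ∈ B := by
      constructor
      · intro hh
        obtain ⟨b, hb, hby⟩ := Finset.mem_image.1 hh
        have : b = y := neg_injective hby
        rwa [← this]
      · intro hh
        exact Finset.mem_image_of_mem _ hh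
    rw [h2] at h1
    rw [← h1]
    constructor
    · intro h0
      linarith
    · intro h0
      linarith
  refine ⟨?_, fun heq => hstar (hle.trans heq.le)⟩
  rcases le_or_gt (posSets k A').card ((n - 1).choose (k - 1)) with h | h
  · obtain ⟨x, hx, hB⟩ := hstar h
    have hcs := card_star hx (k := k) hk
    rw [hA.1] at hcs
    rw [← hcs]
    unfold cntR
    apply Finset.card_le_card
    intro B hBm
    rw [Finset.mem_filter, Finset.mem_powersetCard] at hBm ⊢
    exact ⟨hBm.1, (hB B hBm.1.1 hBm.1.2).2 hBm.2⟩
  · exact h.le.trans hle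

theorem starMin5_17 : StarMin (fun s => s < 0) 5 17 :=
  starMin_of_few (by norm_num) (fun _ hA h => few_5_17 hA h)

theorem starMin5_18 : StarMin (fun s => s < 0) 5 18 :=
  starMin_of_few (by norm_num) (fun _ hA h => few_5_18 hA h)

theorem starMin5_19 : StarMin (fun s => s < 0) 5 19 :=
  starMin_of_few (by norm_num) (fun _ hA h => few_5_19 hA h)

theorem starMin5_21 : StarMin (fun s => s < 0) 5 21 :=
  starMin_of_few (by norm_num) (fun _ hA h => few_5_21 hA h)

end Pool.Agent.Lib.MP1e901d
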