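import Mathlib

/-! MP_1e901d_co : certificates for a checker of branch trees. `a 0 > a 1 > ... > a (n-1)` are reals with
sum zero; a `k`-subset is the increasing list of its indices. A tree branches on `0 < sum` of a list;
a leaf `P` counts the lists which dominate a positive one, a leaf `N` is an integer certificate that
the sums known to be nonpositive contradict the total sum zero. -/

set_option autoImplicit false

namespace Pool.Agent.Lib.MP1e901d.Tree

/-- componentwise `≤` -/
def dom : List ℕ → List ℕ → Bool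
  | x :: u, y :: t => Nat.ble x y && dom u t
  | _, _ => true

/-- number of occurrences -/
def cnt (i : ℕ) : List ℕ → ℕ
  | [] => 0
  | x :: t => bif Nat.beq x i then cnt i t + 1 else cnt i t

/-- weighted coverage of `i` -/
def cov : List (ℕ × List ℕ) → ℕ → ℕ
  | [], _ => 0
  | p :: c, i => p.1 * cnt i p.2 + cov c i

/-- prefix test -/
def run (nu : ℕ) (c : List (ℕ × List ℕ)) : ℕ → ℕ → ℕ → Bool → Bool
  | 0, i, s, st => st && Nat.beq s (nu * i)
  | m + 1, i, s, st => Nat.ble (nu * (i + 1)) (s + cov c i) &&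
      run nu c m (i + 1) (s + cov c i) (st || Nat.blt (nu * (i + 1)) (s + cov c i))

/-- the increasing lists of length `k` with entries below `n` -/
def allK (n k : ℕ) : List (List ℕ) := (List.range n).sublistsLen k

/-- `{0, n-k+1, ..., n-1}` -/
def bot (n k : ℕ) : List ℕ := 0 :: List.range' (n - k + 1) (k - 1)

section sound

variable (n : ℕ) (a : ℕ → ℝ)

/-- sum along a list -/
noncomputable def S (a : ℕ → ℝ) (l : List ℕ) : ℝ := (l.map a).sum

theorem dom_le {n : ℕ} {a : ℕ → ℝ} (hanti : ∀ i j, i ≤ j → j < n → a j ≤ a i) :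
    ∀ u t : List ℕ, u.length = t.length → dom u t = true → (∀ x ∈ t, x < n) → S a t ≤ S a u
  | [], [], _, _, _ => le_rfl
  | [], _ :: _, h, _, _ => by simp at h
  | _ :: _, [], h, _, _ => by simp at h
  | x :: u, y :: t, h, hd, hx => by
    rw [dom, Bool.and_eq_true] at hd
    have h1 : a y ≤ a x := hanti x y (Nat.le_of_ble_eq_true hd.1) (hx y (by simp))
    have h2 := dom_le hanti u t (by simpa using h) hd.2 (fun z hz => hx z (by simp [hz]))
    simp only [S, List.map_cons, List.sum_cons] at h2 ⊢
    linarith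

theorem S_eq_cnt {n : ℕ} (a : ℕ → ℝ) : ∀ t : List ℕ, (∀ x ∈ t, x < n) →
    S a t = ∑ i ∈ Finset.range n, (cnt i t : ℝ) * a i
  | [], _ => by simp [S, cnt]
  | y :: t, h => by
    have ih := S_eq_cnt a t (fun x hx => h x (by simp [hx]))
    have hy : y < n := h y (by simp)
    have h1 : ∀ i, ((cnt i (y :: t) : ℕ) : ℝ) * a i = (if i = y then a i else 0) + (cnt i t : ℝ) * a i := by
      intro i
      by_cases hi : i = y
      · subst hi
        simp [cnt]
        ring
      · have : Nat.beq y i = false := by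
          rw [Bool.eq_false_iff]
          intro h
          exact hi (Nat.eq_of_beq_eq_true h).symm
        simp [cnt, this, hi]
    rw [Finset.sum_congr rfl (fun i _ => h1 i), Finset.sum_add_distrib, ← ih,
      Finset.sum_ite_eq' (Finset.range n) y a, if_pos (Finset.mem_range.2 hy)]
    simp [S]

theorem cov_sum {n : ℕ} (a : ℕ → ℝ) : ∀ c : List (ℕ × List ℕ), (∀ p ∈ c, ∀ x ∈ p.2, x < n) →
    (c.map (fun p => (p.1 : ℝ) * S a p.2)).sum = ∑ i ∈ Finset.range n, (cov c i : ℝ) * a i
  | [], _ => by simp [cov]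
  | p :: c, h => by
    have ih := cov_sum a c (fun q hq => h q (by simp [hq]))
    have hp := S_eq_cnt a p.2 (h p (by simp))
    rw [List.map_cons, List.sum_cons, ih, hp, Finset.mul_sum, ← Finset.sum_add_distrib]
    apply Finset.sum_congr rfl
    intro i _
    rw [cov]
    push_cast
    ring

/-- prefix sums of the coverage -/
def D (c : List (ℕ × List ℕ)) (i : ℕ) : ℕ := ∑ j ∈ Finset.range i, cov c j

theorem run_sound (nu : ℕ) (c : List (ℕ × List ℕ)) : ∀ (m i s : ℕ) (st : Bool), s = D c i →
    run nu c m i s st = true →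
    (∀ j, i ≤ j → j < i + m → nu * (j + 1) ≤ D c (j + 1)) ∧ D c (i + m) = nu * (i + m) ∧
      (st = true ∨ ∃ j, i ≤ j ∧ j < i + m ∧ nu * (j + 1) < D c (j + 1))
  | 0, i, s, st, hs, h => by
    rw [run, Bool.and_eq_true] at h
    refine ⟨fun j h1 h2 => by omega, ?_, Or.inl h.1⟩
    have := Nat.eq_of_beq_eq_true h.2
    rw [Nat.add_zero, ← hs, this]
  | m + 1, i, s, st, hs, h => by
    rw [run, Bool.and_eq_true] at h
    have hD : D c (i + 1) = s + cov c i := by
      rw [D, Finset.sum_range_succ, hs, D]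
    obtain ⟨h1, h2, h3⟩ := run_sound nu c m (i + 1) _ _ hD.symm h.2
    have h0 := Nat.le_of_ble_eq_true h.1
    rw [← hD] at h0
    refine ⟨fun j hj1 hj2 => ?_, ?_, ?_⟩
    · rcases Nat.lt_or_ge i j with hlt | hge
      · exact h1 j hlt (by omega)
      · have : j = i := by omega
        subst this
        exact h0
    · have e : i + (m + 1) = i + 1 + m := by ring
      rw [e]
      exact h2
    · rcases h3 with h3 | ⟨j, hj1, hj2, hj3⟩
      · rw [Bool.or_eq_true] at h3
        rcases h3 with h3 | h3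
        · exact Or.inl h3
        · right
          refine ⟨i, le_rfl, by omega, ?_⟩
          rw [hD]
          exact Nat.blt_eq.mp h3
      · exact Or.inr ⟨j, by omega, by omega, hj3⟩

theorem sum_map_nonpos {α : Type} (f : α → ℝ) : ∀ c : List α, (∀ p ∈ c, f p ≤ 0) →
    (c.map f).sum ≤ 0
  | [], _ => by simp
  | p :: c, h => by
    have ih := sum_map_nonpos f c (fun q hq => h q (by simp [hq]))
    have hp := h p (by simp)
    rw [List.map_cons, List.sum_cons]
    linarith

theorem cert_false {n nu : ℕ} {a : ℕ → ℝ} (hlt : ∀ i, i + 1 < n → a (i + 1) < a i)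
    (hsum : ∑ i ∈ Finset.range n, a i = 0) {c : List (ℕ × List ℕ)}
    (hc : ∀ p ∈ c, ∀ x ∈ p.2, x < n) (hS : ∀ p ∈ c, S a p.2 ≤ 0)
    (hrun : run nu c n 0 0 false = true) : False := by
  obtain ⟨h1, h2, h3⟩ := run_sound nu c n 0 0 false (by simp [D]) hrun
  simp only [Nat.zero_add, Nat.zero_le, true_and, forall_true_left] at h1 h2 h3
  rcases h3 with h3 | ⟨j, hjn, hj⟩
  · simp at h3
  have hle : (c.map (fun p => (p.1 : ℝ) * S a p.2)).sum ≤ 0 := by
    apply sum_map_nonpos
    intro p hp
    exact mul_nonpos_of_nonneg_of_nonpos (Nat.cast_nonneg _) (hS p hp)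
  rw [cov_sum a c hc] at hle
  have hn : 1 ≤ n := by omega
  -- summation by parts
  have habel := Finset.sum_range_by_parts a (fun i => (cov c i : ℝ) - nu) n
  simp only [smul_eq_mul] at habel
  have hDr : ∀ i, ∑ j ∈ Finset.range i, ((cov c j : ℝ) - nu) = (D c i : ℝ) - nu * i := by
    intro i
    rw [Finset.sum_sub_distrib, D]
    push_cast
    simp [mul_comm]
  rw [hDr n] at habel
  have hz : (D c n : ℝ) - nu * n = 0 := by
    rw [h2]; push_cast; ring
  rw [hz, mul_zero, zero_sub] at habel
  have hlhs : ∑ i ∈ Finset.range n, a i * ((cov c i : ℝ) - nu)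
      = ∑ i ∈ Finset.range n, (cov c i : ℝ) * a i := by
    have : ∀ i ∈ Finset.range n, a i * ((cov c i : ℝ) - nu) = (cov c i : ℝ) * a i - nu * a i := by
      intro i _; ring
    rw [Finset.sum_congr rfl this, Finset.sum_sub_distrib, ← Finset.mul_sum, hsum]
    ring
  rw [hlhs] at habel
  have hpos : 0 < -∑ i ∈ Finset.range (n - 1), (a (i + 1) - a i) *
      (∑ j ∈ Finset.range (i + 1), ((cov c j : ℝ) - nu)) := by
    rw [← Finset.sum_neg_distrib]
    have hjn' : j < n - 1 := by
      by_contra hcon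
      have : j + 1 = n := by omega
      rw [this] at hj
      omega
    apply Finset.sum_pos'
    · intro i hi
      rw [hDr]
      have hi' := Finset.mem_range.1 hi
      have e1 : a (i + 1) - a i ≤ 0 := by linarith [hlt i (by omega)]
      have e2 : (0 : ℝ) ≤ (D c (i + 1) : ℝ) - nu * ((i + 1 : ℕ) : ℝ) := by
        have := h1 i (by omega)
        have : ((nu * (i + 1) : ℕ) : ℝ) ≤ (D c (i + 1) : ℝ) := by exact_mod_cast this
        push_cast at this ⊢
        linarith
      nlinarith [mul_nonneg (neg_nonneg.2 e1) e2]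
    · refine ⟨j, Finset.mem_range.2 hjn', ?_⟩
      rw [hDr]
      have e1 : a (j + 1) - a j < 0 := by linarith [hlt j (by omega)]
      have e2 : (0 : ℝ) < (D c (j + 1) : ℝ) - nu * ((j + 1 : ℕ) : ℝ) := by
        have : ((nu * (j + 1) : ℕ) : ℝ) < (D c (j + 1) : ℝ) := by exact_mod_cast hj
        push_cast at this ⊢
        linarith
      nlinarith [mul_pos (neg_pos.2 e1) e2]
  linarith

end sound

end Pool.Agent.Lib.MP1e901d.Tree
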